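import Pool.Agent.H852R2.DM.Defs

/-!
# LCSUM, LCUNIQ (task 58 of helper852's diameter project)
-/

namespace DM852
open RC14 RC852 Finset Filter Equiv

open Classical in
/-- counting permutations with a long cycle `c` by `c` and the rest -/
theorem LCSUM (a : ℝ) (ha : 0 < a) (ha1 : a ≤ 1 / 4) : ∀ᶠ n : ℕ in atTop,
    ∀ F : Perm (Fin n) → Perm (Fin n) → ℝ,
      ∑ π : Alt n, (∑ c ∈ (π : Perm (Fin n)).cycleFactorsFinset.filter
          (fun c => InW a n c.support.card), F c π) =
        ∑ c : Perm (Fin n) with c.IsCycle ∧ InW a n c.support.card,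
          ∑ u : Perm {x // x ∉ c.support} with Perm.sign u = Perm.sign c, F c (c * exc c u) := by
  refine Filter.Eventually.of_forall fun n F => ?_
  rw [Finset.sum_comm' (s' := fun c => univ.filter
      (fun π : Alt n => c ∈ (π : Perm (Fin n)).cycleFactorsFinset))
    (t' := univ.filter (fun c : Perm (Fin n) => c.IsCycle ∧ InW a n c.support.card))]
  · apply Finset.sum_congr rfl
    intro c hc
    rw [mem_filter] at hc
    obtain ⟨_, hcyc, hW⟩ := hc
    symm
    have hfix : ∀ (u : Perm {x // x ∉ c.support}) (x : Fin n), x ∈ c.support →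
        exc c u x = x := by
      intro u x hx
      unfold exc
      exact Perm.ofSubtype_apply_of_not_mem u (by simpa using hx)
    have hsg : ∀ u : Perm {x // x ∉ c.support}, Perm.sign (exc c u) = Perm.sign u := by
      intro u
      unfold exc
      exact Perm.sign_ofSubtype u
    refine Finset.sum_bij (fun u hu => (⟨c * exc c u, ?_⟩ : Alt n)) ?_ ?_ ?_ ?_
    · rw [mem_filter] at hu
      rw [Perm.mem_alternatingGroup, Perm.sign_mul, hsg, hu.2]
      exact Int.units_mul_self _
    · intro u hu
      rw [mem_filter]
      refine ⟨mem_univ _, ?_⟩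
      rw [Perm.mem_cycleFactorsFinset_iff]
      refine ⟨hcyc, fun x hx => ?_⟩
      change c x = (c * exc c u) x
      rw [Perm.mul_apply, hfix u x hx]
    · intro u _ u' _ h
      have h1 : c * exc c u = c * exc c u' := congrArg Subtype.val h
      have h2 : exc c u = exc c u' := mul_left_cancel h1
      unfold exc at h2
      exact Perm.ofSubtype_injective h2
    · intro π hπ
      rw [mem_filter, Perm.mem_cycleFactorsFinset_iff] at hπ
      obtain ⟨_, _, hag⟩ := hπ
      have hg : ∀ x, x ∈ c.support → (c⁻¹ * (π : Perm (Fin n))) x = x := by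
        intro x hx
        rw [Perm.mul_apply, ← hag x hx]
        exact c.symm_apply_apply x
      have h1 : ∀ x, (c⁻¹ * (π : Perm (Fin n))) x ∉ c.support ↔ x ∉ c.support := by
        intro x
        rw [not_iff_not]
        constructor
        · intro hx
          have := hg _ hx
          have := (c⁻¹ * (π : Perm (Fin n))).injective this
          rwa [this] at hx
        · intro hx
          rw [hg x hx]; exact hx
      have h2 : ∀ x, (c⁻¹ * (π : Perm (Fin n))) x ≠ x → x ∉ c.support :=
        fun x hx hx' => hx (hg x hx')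
      have h3 : exc c (Perm.subtypePerm (c⁻¹ * (π : Perm (Fin n))) h1) =
          c⁻¹ * (π : Perm (Fin n)) := by
        unfold exc
        exact Perm.ofSubtype_subtypePerm h1 h2
      refine ⟨Perm.subtypePerm (c⁻¹ * (π : Perm (Fin n))) h1, ?_, ?_⟩
      · rw [mem_filter]
        refine ⟨mem_univ _, ?_⟩
        rw [← hsg, h3, Perm.sign_mul, Perm.sign_inv]
        have : Perm.sign (π : Perm (Fin n)) = 1 := π.2
        rw [this, mul_one]
      · apply Subtype.ext
        change c * exc c _ = (π : Perm (Fin n))
        rw [h3]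
        group
    · intro u _
      rfl
  · intro π c
    simp only [mem_univ, true_and, mem_filter]
    constructor
    · rintro ⟨h1, h2⟩
      exact ⟨h1, (Perm.mem_cycleFactorsFinset_iff.1 h1).1, h2⟩
    · rintro ⟨h1, _, h2⟩
      exact ⟨h1, h2⟩

/-- a permutation has at most one long cycle -/
theorem LCUNIQ (a : ℝ) (ha : 0 < a) (ha1 : a ≤ 1 / 4) (n : ℕ) (hn : 1 ≤ n) (π c c' : Perm (Fin n))
    (hc : c ∈ π.cycleFactorsFinset) (hc' : c' ∈ π.cycleFactorsFinset)
    (h : InW a n c.support.card) (h' : InW a n c'.support.card) : c = c' := by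
  by_contra hne
  have hd := Perm.cycleFactorsFinset_pairwise_disjoint π hc hc' hne
  have hds := (Perm.disjoint_iff_disjoint_support).1 hd
  have hcard := Finset.card_union_of_disjoint hds
  have hle : (c.support ∪ c'.support).card ≤ n := by
    simpa using Finset.card_le_univ (c.support ∪ c'.support)
  rw [hcard] at hle
  have hle' : (c.support.card : ℝ) + (c'.support.card : ℝ) ≤ n := by exact_mod_cast hle
  have h1 := h.1
  have h2 := h'.1
  have hn' : (1 : ℝ) ≤ n := by exact_mod_cast hn
  nlinarith

end DM852
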